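import Pool.Agent.Y537.OM.Main

set_option autoImplicit false

/-!
# sw-reducibility and tt-reducibility between the rational multiples of an `Ω`-number

`bit`, `MLRandom`, `LeftCE`, `IsOmega`, `TTle` and `SWle` are defined in
`Pool.Agent.Helper626.Rand.Defs` and `Pool.Agent.Helper626.Rand.SWDefs` (definitions of the problem
file).

Let `x` be an `Ω`-number. Its positive rational multiples below `1` are `Ω`-numbers, and for two of
them `q x ≤_sw r x` holds if and only if `r / q` is an odd natural number times a power of two
(with any integer exponent). So the sw-degrees of the rational multiples of `x` form a lattice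
isomorphic to the lattice of the finitely supported sequences of integers with the pointwise order,
`x` being the sequence `0`: in particular every `Ω`-number is strictly sw-below an `Ω`-number and
strictly sw-above another one, and every finite partial order embeds in the sw-degrees of
`Ω`-numbers, for instance inside the single tt-degree of the numbers `x / m`. On the other hand no
`Ω`-number is strictly tt-below another one.

Idea. The first digits of `z / m` are computed from those of `z` by division with remainder. If `b`
does not divide `a 2 ^ k` for any `k`, then, whatever the constant of the reduction is, a positive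
proportion of the prefixes of `z` at every scale does not allow to find the digits of `z / a` from
those of `z / b`, because a multiple of `a / 2 ^ n` lies strictly between two consecutive multiples
of `b / 2 ^ (n + c)`.
-/

namespace Pool.Agent.Results.MP_a2e505_lc.RationalMultiples

open Pool.Agent.Helper626.Rand

/-- **The sw-order and the tt-order of the rational multiples of `Ω`-numbers.** -/
theorem result :
    (∃ x : ℝ, IsOmega x) ∧
    (∀ x : ℝ, IsOmega x →
      -- all the numbers `x / m` are `Ω`-numbers in the tt-degree of `x`
      (∀ m : ℕ, 0 < m → IsOmega (x / m) ∧ TTle (x / m) x ∧ TTle x (x / m)) ∧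
      -- rational multiples are `Ω`-numbers
      (∀ q : ℚ, 0 < q → (q : ℝ) * x < 1 → IsOmega (q * x)) ∧
      -- the exact criterion
      (∀ q r : ℚ, 0 < q → 0 < r → (q : ℝ) * x < 1 → (r : ℝ) * x < 1 →
        (SWle (q * x) (r * x) ↔ ∃ (m : ℕ) (k : ℤ), Odd m ∧ r = q * m * 2 ^ k)) ∧
      -- the lattice of the finitely supported sequences of integers
      ∃ e : (ℕ →₀ ℤ) → ℝ, e 0 = x ∧ (∀ v, IsOmega (e v)) ∧ ∀ v w, SWle (e v) (e w) ↔ v ≤ w) ∧
    -- tt-reducibility is symmetric on `Ω`-numbers
    ∀ x y : ℝ, IsOmega x → IsOmega y → TTle y x → TTle x y :=
  ⟨exists_omega, fun _ hx => Pool.Agent.Y537.OM.main hx, fun _ _ hx hy h => TTle_of_TTle hx hy h⟩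

end Pool.Agent.Results.MP_a2e505_lc.RationalMultiples
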